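import Pool.Agent.H43.G.R_seed8.Helper112.MultLS

/-!
Exponential sums of functions on an interval of integers: orthogonality modulo `q`,
Parseval, and the correlations at multiples of `q` on average over `q`.
-/

open Finset

namespace Pool.Agent.W110.HV

open Pool.Agent.Helper112

/-- exponential sum of a function on the integers of the interval `[A,B]` -/
noncomputable def ES (A B : ℤ) (g : ℤ → ℂ) (α : ℝ) : ℂ := ∑ n ∈ Icc A B, g n * ee (n * α)

/-- orthogonality of the additive characters modulo `q` -/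
lemma orth (q : ℕ) (hq : 0 < q) (h : ℤ) :
    ∑ b ∈ range q, ee (h * ((b : ℝ) / q)) = if (q : ℤ) ∣ h then (q : ℂ) else 0 := by
  have hq0 : (q : ℝ) ≠ 0 := by positivity
  have e1 : ∀ b ∈ range q, ee (h * ((b : ℝ) / q)) = ee (h / q) ^ b := by
    intro b _
    rw [← ls_ee_nat_mul]
    congr 1
    ring
  rw [sum_congr rfl e1]
  split_ifs with hd
  · obtain ⟨k, rfl⟩ := hd
    have : ee (((q * k : ℤ) : ℝ) / q) = 1 := by
      have : (((q * k : ℤ) : ℝ) / q) = (k : ℝ) := by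
        push_cast
        field_simp
      rw [this, ls_ee_int]
    rw [this]
    simp
  · have hne : ee (h / q) ≠ 1 := by
      intro hh
      obtain ⟨k, hk⟩ := ls_ee_eq_one hh
      apply hd
      refine ⟨k, ?_⟩
      have : (h : ℝ) = q * k := by
        rw [← hk]
        field_simp
      exact_mod_cast this
    have hp : ee (h / q) ^ q = 1 := by
      rw [← ls_ee_nat_mul]
      have : (q : ℝ) * (h / q) = (h : ℝ) := by field_simp
      rw [this, ls_ee_int]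
    rw [geom_sum_eq hne, hp]
    simp

/-- Parseval modulo `q`, polar form -/
lemma pars (q : ℕ) (hq : 0 < q) (A B : ℤ) (f g : ℤ → ℂ) :
    ∑ b ∈ range q, ES A B f ((b : ℝ) / q) * (starRingEnd ℂ) (ES A B g ((b : ℝ) / q)) =
      q * ∑ n ∈ Icc A B, ∑ m ∈ Icc A B,
        if (q : ℤ) ∣ n - m then f n * (starRingEnd ℂ) (g m) else 0 := by
  have e1 : ∀ b ∈ range q, ES A B f ((b : ℝ) / q) * (starRingEnd ℂ) (ES A B g ((b : ℝ) / q)) =
      ∑ n ∈ Icc A B, ∑ m ∈ Icc A B, f n * (starRingEnd ℂ) (g m) *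
        ee (((n - m : ℤ) : ℝ) * ((b : ℝ) / q)) := by
    intro b _
    unfold ES
    rw [map_sum, sum_mul_sum]
    refine sum_congr rfl fun n _ => sum_congr rfl fun m _ => ?_
    rw [map_mul, ls_conj_ee]
    have : ee (((n - m : ℤ) : ℝ) * ((b : ℝ) / q)) = ee (n * ((b : ℝ) / q)) * ee (-(m * ((b : ℝ) / q))) := by
      rw [← ls_ee_add]
      congr 1
      push_cast
      ring
    rw [this]
    ring
  rw [sum_congr rfl e1, sum_comm, mul_sum]
  refine sum_congr rfl fun n _ => ?_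
  rw [sum_comm, mul_sum]
  refine sum_congr rfl fun m _ => ?_
  rw [← mul_sum, orth q hq]
  split_ifs
  · ring
  · ring

lemma mul_conj_norm (z : ℂ) : z * (starRingEnd ℂ) z = ((‖z‖ ^ 2 : ℝ) : ℂ) := by
  rw [Complex.mul_conj, Complex.normSq_eq_norm_sq]

/-- the off-diagonal correlation of `f` modulo `q` -/
noncomputable def off (q : ℕ) (A B : ℤ) (f g : ℤ → ℂ) : ℂ :=
  ∑ n ∈ Icc A B, ∑ m ∈ Icc A B,
    if n ≠ m ∧ (q : ℤ) ∣ n - m then f n * (starRingEnd ℂ) (g m) else 0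

lemma pars_off (q : ℕ) (hq : 0 < q) (A B : ℤ) (f g : ℤ → ℂ) :
    ∑ b ∈ range q, ES A B f ((b : ℝ) / q) * (starRingEnd ℂ) (ES A B g ((b : ℝ) / q)) =
      q * (∑ n ∈ Icc A B, f n * (starRingEnd ℂ) (g n) + off q A B f g) := by
  rw [pars q hq]
  congr 1
  unfold off
  rw [← sum_add_distrib]
  refine sum_congr rfl fun n hn => ?_
  have : f n * (starRingEnd ℂ) (g n) = ∑ m ∈ Icc A B, if m = n then f n * (starRingEnd ℂ) (g m) else 0 := by
    rw [sum_ite_eq' (Icc A B) n, if_pos hn]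
  rw [this, ← sum_add_distrib]
  refine sum_congr rfl fun m _ => ?_
  by_cases h : m = n
  · subst h
    simp
  · have h' : n ≠ m := fun e => h e.symm
    simp [h, h']

lemma off_eq_zero (q : ℕ) (A B : ℤ) (hq : B - A < q) (f g : ℤ → ℂ) : off q A B f g = 0 := by
  unfold off
  apply sum_eq_zero
  intro n hn
  apply sum_eq_zero
  intro m hm
  rw [mem_Icc] at hn hm
  rw [if_neg]
  rintro ⟨h1, h2⟩
  have h3 : n - m ≠ 0 := sub_ne_zero.2 h1
  have h4 := Int.le_of_dvd (b := |n - m|) (by positivity) ((dvd_abs _ _).2 h2)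
  have h5 : |n - m| ≤ B - A := by
    rw [abs_le]
    constructor <;> linarith
  linarith

/-- Parseval -/
lemma pars_norm (q : ℕ) (A B : ℤ) (hq0 : 0 < q) (hq : B - A < q) (f : ℤ → ℂ) :
    ∑ b ∈ range q, ‖ES A B f ((b : ℝ) / q)‖ ^ 2 = q * ∑ n ∈ Icc A B, ‖f n‖ ^ 2 := by
  have h := pars_off q hq0 A B f f
  rw [off_eq_zero q A B hq, add_zero] at h
  simp_rw [mul_conj_norm] at h
  exact_mod_cast h

/-- the correlation at the difference `h` -/
noncomputable def cor (A B : ℤ) (f g : ℤ → ℂ) (h : ℤ) : ℂ :=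
  ∑ n ∈ Icc A B, ∑ m ∈ Icc A B, if n - m = h then f n * (starRingEnd ℂ) (g m) else 0

lemma ES_cor (A B : ℤ) (f g : ℤ → ℂ) (α : ℝ) :
    ES (-(B - A)) (B - A) (cor A B f g) α = ES A B f α * (starRingEnd ℂ) (ES A B g α) := by
  unfold ES cor
  rw [map_sum, sum_mul_sum]
  have e1 : ∀ h ∈ Icc (-(B - A)) (B - A), (∑ n ∈ Icc A B, ∑ m ∈ Icc A B,
      if n - m = h then f n * (starRingEnd ℂ) (g m) else 0) * ee (h * α) =
      ∑ n ∈ Icc A B, ∑ m ∈ Icc A B,
        if n - m = h then f n * (starRingEnd ℂ) (g m) * ee (((n - m : ℤ) : ℝ) * α) else 0 := by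
    intro h _
    rw [sum_mul]
    refine sum_congr rfl fun n _ => ?_
    rw [sum_mul]
    refine sum_congr rfl fun m _ => ?_
    split_ifs with e
    · rw [e]
    · ring
  rw [sum_congr rfl e1, sum_comm]
  refine sum_congr rfl fun n hn => ?_
  rw [sum_comm]
  refine sum_congr rfl fun m hm => ?_
  rw [sum_ite_eq, if_pos]
  · rw [map_mul, ls_conj_ee]
    have : ee (((n - m : ℤ) : ℝ) * α) = ee (n * α) * ee (-(m * α)) := by
      rw [← ls_ee_add]
      congr 1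
      push_cast
      ring
    rw [this]
    ring
  · rw [mem_Icc] at hn hm ⊢
    constructor <;> linarith

/-- the mean square of the correlations -/
lemma cor_sq (A B : ℤ) (f g : ℤ → ℂ) (Z : ℝ) (hg : ∀ α : ℝ, ‖ES A B g α‖ ≤ Z) :
    ∑ h ∈ Icc (-(B - A)) (B - A), ‖cor A B f g h‖ ^ 2 ≤ Z ^ 2 * ∑ n ∈ Icc A B, ‖f n‖ ^ 2 := by
  set q : ℕ := (2 * |B - A| + 1).toNat with hq
  have hq1 : ((q : ℕ) : ℤ) = 2 * |B - A| + 1 := by
    rw [hq, Int.toNat_of_nonneg (by positivity)]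
  have hq0 : 0 < q := by
    have : (0 : ℤ) < q := by rw [hq1]; positivity
    exact_mod_cast this
  have hab : B - A ≤ |B - A| := le_abs_self _
  have h1 := pars_norm q (-(B - A)) (B - A) hq0 (by rw [hq1]; linarith) (cor A B f g)
  have h2 := pars_norm q A B hq0 (by rw [hq1]; have := abs_nonneg (B - A); linarith) f
  have hqr : (0 : ℝ) < q := by exact_mod_cast hq0
  have h3 : (q : ℝ) * ∑ h ∈ Icc (-(B - A)) (B - A), ‖cor A B f g h‖ ^ 2 ≤
      q * (Z ^ 2 * ∑ n ∈ Icc A B, ‖f n‖ ^ 2) := by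
    rw [← h1]
    calc ∑ b ∈ range q, ‖ES (-(B - A)) (B - A) (cor A B f g) ((b : ℝ) / q)‖ ^ 2
        ≤ ∑ b ∈ range q, Z ^ 2 * ‖ES A B f ((b : ℝ) / q)‖ ^ 2 := by
          refine sum_le_sum fun b _ => ?_
          rw [ES_cor, norm_mul, RCLike.norm_conj, mul_pow, mul_comm]
          apply mul_le_mul_of_nonneg_right _ (by positivity)
          exact pow_le_pow_left₀ (norm_nonneg _) (hg _) 2
      _ = _ := by
          rw [← mul_sum, h2]
          ring
  exact le_of_mul_le_mul_left h3 hqr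

lemma off_eq_cor (q : ℕ) (A B : ℤ) (f g : ℤ → ℂ) :
    off q A B f g = ∑ h ∈ (Icc (-(B - A)) (B - A)).filter (fun h => h ≠ 0 ∧ (q : ℤ) ∣ h),
      cor A B f g h := by
  unfold off cor
  conv_rhs => rw [sum_comm]
  refine sum_congr rfl fun n hn => ?_
  conv_rhs => rw [sum_comm]
  refine sum_congr rfl fun m hm => ?_
  rw [sum_ite_eq]
  rw [mem_Icc] at hn hm
  by_cases h : n ≠ m ∧ (q : ℤ) ∣ n - m
  · rw [if_pos h, if_pos]
    rw [mem_filter, mem_Icc]
    refine ⟨⟨by linarith, by linarith⟩, sub_ne_zero.2 h.1, h.2⟩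
  · rw [if_neg h, if_neg]
    rw [mem_filter]
    rintro ⟨_, h1, h2⟩
    exact h ⟨sub_ne_zero.1 h1, h2⟩

/-- number of nonzero multiples of `q` in `[-L,L]` -/
lemma card_mult (q : ℕ) (hq : 0 < q) (L : ℤ) (hL : 0 ≤ L) :
    ((((Icc (-L) L).filter (fun h => h ≠ 0 ∧ (q : ℤ) ∣ h)).card : ℕ) : ℝ) ≤ 2 * L / q := by
  have hqz : (0 : ℤ) < q := by exact_mod_cast hq
  have hqr : (0 : ℝ) < q := by exact_mod_cast hq
  set J : ℤ := L / q with hJ
  have hsub : (Icc (-L) L).filter (fun h => h ≠ 0 ∧ (q : ℤ) ∣ h) ⊆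
      ((Icc (-J) J).erase 0).image (fun j => (q : ℤ) * j) := by
    intro h hh
    rw [mem_filter, mem_Icc] at hh
    obtain ⟨⟨h1, h2⟩, h3, k, rfl⟩ := hh
    rw [mem_image]
    refine ⟨k, ?_, rfl⟩
    rw [mem_erase, mem_Icc]
    refine ⟨fun e => h3 (by rw [e, mul_zero]), ?_, ?_⟩
    · have : -k ≤ J := by
        rw [hJ, Int.le_ediv_iff_mul_le hqz]
        linarith
      linarith
    · rw [hJ, Int.le_ediv_iff_mul_le hqz]
      linarith
  have hJ0 : 0 ≤ J := Int.ediv_nonneg hL hqz.le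
  have h1 : ((Icc (-L) L).filter (fun h => h ≠ 0 ∧ (q : ℤ) ∣ h)).card ≤ (2 * J).toNat := by
    refine (card_le_card hsub).trans (card_image_le.trans ?_)
    rw [card_erase_of_mem (by rw [mem_Icc]; constructor <;> linarith), Int.card_Icc]
    omega
  have h2 : (((2 * J).toNat : ℕ) : ℝ) = 2 * (J : ℝ) := by
    have : (((2 * J).toNat : ℕ) : ℤ) = 2 * J := Int.toNat_of_nonneg (by linarith)
    have h3 : ((((2 * J).toNat : ℕ) : ℤ) : ℝ) = ((2 * J : ℤ) : ℝ) := by rw [this]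
    rw [Int.cast_natCast] at h3
    rw [h3]
    push_cast
    ring
  have h3 : (J : ℝ) * q ≤ L := by
    have : J * q ≤ L := Int.ediv_mul_le _ hqz.ne'
    exact_mod_cast this
  calc ((((Icc (-L) L).filter (fun h => h ≠ 0 ∧ (q : ℤ) ∣ h)).card : ℕ) : ℝ)
      ≤ (((2 * J).toNat : ℕ) : ℝ) := by exact_mod_cast h1
    _ = 2 * (J : ℝ) := h2
    _ ≤ 2 * L / q := by
        rw [le_div_iff₀ hqr]
        linarith

/-- the off-diagonal correlations modulo `q` on average over `q` -/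
theorem off_avg (A B : ℤ) (hAB : A ≤ B) (K : ℕ) (hK : 1 ≤ K) (f g : ℤ → ℂ) (Z D : ℝ)
    (hg : ∀ α : ℝ, ‖ES A B g α‖ ≤ Z) (hD0 : 0 ≤ D)
    (hD : ∀ h : ℤ, h ≠ 0 → |h| ≤ B - A → (h.natAbs.divisors.card : ℝ) ≤ D) :
    ∑ q ∈ Ioc K (2 * K), ‖off q A B f g‖ ^ 2 ≤
      2 * (B - A) / K * D * Z ^ 2 * ∑ n ∈ Icc A B, ‖f n‖ ^ 2 := by
  set L : ℤ := B - A with hL
  have hL0 : 0 ≤ L := by linarith
  have hLr : (0 : ℝ) ≤ L := by exact_mod_cast hL0
  have hKr : (0 : ℝ) < K := by exact_mod_cast hK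
  set F : Finset ℤ := Icc (-L) L with hF
  have hLc : ((B : ℝ) - A) = L := by rw [hL]; push_cast; ring
  have h1 : ∀ q ∈ Ioc K (2 * K), ‖off q A B f g‖ ^ 2 ≤
      2 * L / K * ∑ h ∈ F.filter (fun h => h ≠ 0), if (q : ℤ) ∣ h then ‖cor A B f g h‖ ^ 2 else 0 := by
    intro q hq
    rw [mem_Ioc] at hq
    have hq0 : 0 < q := by omega
    rw [off_eq_cor]
    have h2 : ‖∑ h ∈ F.filter (fun h => h ≠ 0 ∧ (q : ℤ) ∣ h), cor A B f g h‖ ^ 2 ≤
        ((F.filter (fun h => h ≠ 0 ∧ (q : ℤ) ∣ h)).card : ℝ) *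
          ∑ h ∈ F.filter (fun h => h ≠ 0 ∧ (q : ℤ) ∣ h), ‖cor A B f g h‖ ^ 2 := by
      refine (pow_le_pow_left₀ (norm_nonneg _) (norm_sum_le _ _) 2).trans ?_
      exact sq_sum_le_card_mul_sum_sq
    refine h2.trans ?_
    have h3 := card_mult q hq0 L hL0
    have h4 : 2 * (L : ℝ) / q ≤ 2 * L / K := by
      apply div_le_div_of_nonneg_left (by positivity) hKr
      exact_mod_cast hq.1.le
    have h5 : ∑ h ∈ F.filter (fun h => h ≠ 0 ∧ (q : ℤ) ∣ h), ‖cor A B f g h‖ ^ 2 =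
        ∑ h ∈ F.filter (fun h => h ≠ 0), if (q : ℤ) ∣ h then ‖cor A B f g h‖ ^ 2 else 0 := by
      rw [← sum_filter, filter_filter]
    rw [h5]
    apply mul_le_mul_of_nonneg_right (h3.trans h4)
    refine sum_nonneg fun h _ => ?_
    split_ifs <;> positivity
  refine (sum_le_sum h1).trans ?_
  rw [← mul_sum, sum_comm, hLc]
  have h6 : ∀ h ∈ F.filter (fun h => h ≠ 0),
      ∑ q ∈ Ioc K (2 * K), (if ((q : ℕ) : ℤ) ∣ h then ‖cor A B f g h‖ ^ 2 else 0) ≤
        D * ‖cor A B f g h‖ ^ 2 := by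
    intro h hh
    rw [mem_filter, hF, mem_Icc] at hh
    rw [← sum_filter, sum_const, nsmul_eq_mul]
    apply mul_le_mul_of_nonneg_right _ (by positivity)
    refine le_trans ?_ (hD h hh.2 (abs_le.2 hh.1))
    have : (Ioc K (2 * K)).filter (fun q : ℕ => (q : ℤ) ∣ h) ⊆ h.natAbs.divisors := by
      intro q hq
      rw [mem_filter] at hq
      rw [Nat.mem_divisors]
      exact ⟨Int.natCast_dvd.1 hq.2, Int.natAbs_ne_zero.2 hh.2⟩
    exact_mod_cast card_le_card this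
  have h7 := cor_sq A B f g Z hg
  rw [← hL, ← hF] at h7
  calc 2 * (L : ℝ) / K * ∑ h ∈ F.filter (fun h => h ≠ 0),
        ∑ q ∈ Ioc K (2 * K), (if ((q : ℕ) : ℤ) ∣ h then ‖cor A B f g h‖ ^ 2 else 0)
      ≤ 2 * (L : ℝ) / K * ∑ h ∈ F.filter (fun h => h ≠ 0), D * ‖cor A B f g h‖ ^ 2 := by
        apply mul_le_mul_of_nonneg_left (sum_le_sum h6) (by positivity)
    _ ≤ 2 * (L : ℝ) / K * (D * (Z ^ 2 * ∑ n ∈ Icc A B, ‖f n‖ ^ 2)) := by
        apply mul_le_mul_of_nonneg_left _ (by positivity)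
        rw [← mul_sum]
        apply mul_le_mul_of_nonneg_left _ hD0
        refine le_trans ?_ h7
        exact sum_le_sum_of_subset_of_nonneg (filter_subset _ _) fun _ _ _ => by positivity
    _ = _ := by ring

end Pool.Agent.W110.HV
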